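import Pool.Agent.H40.ReachFinal

set_option autoImplicit false
set_option linter.constructorNameAsVariable false

/-!
# A deterministic two-player reach-a-set game without stationary approximate equilibria

Problem MP_87895e_lc, negative answer, with history-dependent deviations and state-dependent action
sets.
-/

namespace Pool.Agent.Results.MP_87895e_lc.NoStationaryEquilibrium

/-- A deterministic two-player reach-a-set game: finitely many states, in every state finitely many
(at least one) actions of both players, the next state as a function of the state and of the two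
actions, and a target set for each player. -/
structure Game where
  /-- states -/
  S : Type
  /-- actions of player 1 -/
  A₁ : S → Type
  /-- actions of player 2 -/
  A₂ : S → Type
  [finS : Fintype S]
  [fin₁ : ∀ s, Fintype (A₁ s)]
  [fin₂ : ∀ s, Fintype (A₂ s)]
  [ne₁ : ∀ s, Nonempty (A₁ s)]
  [ne₂ : ∀ s, Nonempty (A₂ s)]
  /-- the transitions -/
  next : ∀ s, A₁ s → A₂ s → S
  /-- target of player 1 -/
  T₁ : Set S
  /-- target of player 2 -/
  T₂ : Set S

attribute [instance] Game.finS Game.fin₁ Game.fin₂ Game.ne₁ Game.ne₂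

/-- What is recorded of one stage of the play: the state and the two actions. -/
abbrev Stage (G : Game) : Type := Σ s : G.S, G.A₁ s × G.A₂ s

/-- A (behaviour) strategy for a player with the action sets `A s`: `prob h s a` is the probability
of the action `a` in the current state `s` after the history `h`. -/
structure Strategy (G : Game) (A : G.S → Type) [∀ s, Fintype (A s)] where
  /-- the mixed actions -/
  prob : List (Stage G) → ∀ s, A s → ℝ
  nonneg : ∀ h s a, 0 ≤ prob h s a
  sum_one : ∀ h s, ∑ a, prob h s a = 1

/-- The mixed actions depend on the current state only. -/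
def Stationary {G : Game} {A : G.S → Type} [∀ s, Fintype (A s)] (σ : Strategy G A) : Prop :=
  ∀ h h', σ.prob h = σ.prob h'

open Classical in
/-- The probability that the play which is in the state `s` after the history `h` visits `T` during
the next `n` steps (the state `s` included). -/
noncomputable def reach (G : Game) (σ : Strategy G G.A₁) (τ : Strategy G G.A₂) (T : Set G.S) :
    ℕ → List (Stage G) → G.S → ℝ
  | 0, _, s => if s ∈ T then 1 else 0
  | n + 1, h, s => if s ∈ T then 1 else
      ∑ a, ∑ b, σ.prob h s a * τ.prob h s b * reach G σ τ T n (h ++ [⟨s, a, b⟩]) (G.next s a b)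

/-- The probability that the play starting in `s` ever visits `T`. -/
noncomputable def payoff (G : Game) (σ : Strategy G G.A₁) (τ : Strategy G G.A₂) (T : Set G.S)
    (s : G.S) : ℝ :=
  ⨆ n : ℕ, reach G σ τ T n [] s

/-- `ε`-Nash equilibrium: from every initial state no player can raise the payoff by more than `ε`
by switching to any other (history-dependent) strategy. -/
def IsNash (G : Game) (ε : ℝ) (σ : Strategy G G.A₁) (τ : Strategy G G.A₂) : Prop :=
  ∀ s, (∀ σ' : Strategy G G.A₁, payoff G σ' τ G.T₁ s ≤ payoff G σ τ G.T₁ s + ε) ∧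
    ∀ τ' : Strategy G G.A₂, payoff G σ τ' G.T₂ s ≤ payoff G σ τ G.T₂ s + ε

/-- the ten-state game -/
private noncomputable def G0 : Game where
  S := H40.St
  A₁ := fun _ => Fin 3
  A₂ := fun _ => Fin 3
  next := H40.nxt
  T₁ := H40.T1
  T₂ := H40.T2

private theorem reach_eq (σ : Strategy G0 G0.A₁) (τ : Strategy G0 G0.A₂)
    (f g : H40.St → Fin 3 → ℝ) (hf : ∀ h s a, σ.prob h s a = f s a)
    (hg : ∀ h s a, τ.prob h s a = g s a) (T : Set H40.St) (n : ℕ) :
    ∀ (h : List (Stage G0)) (s : H40.St),
      reach G0 σ τ T n h s = H40.It H40.nxt f g T n s := by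
  induction n with
  | zero =>
    intro h s
    by_cases hs : s ∈ T
    · rw [H40.It_mem hs]; exact if_pos hs
    · rw [H40.It_zero_not_mem hs]; exact if_neg hs
  | succ n ih =>
    intro h s
    by_cases hs : s ∈ T
    · rw [H40.It_mem hs]; exact if_pos hs
    · rw [H40.It_succ_not_mem hs]
      refine (if_neg hs).trans ?_
      refine Finset.sum_congr rfl fun a _ => Finset.sum_congr rfl fun b _ => ?_
      rw [hf, hg, ih]
      rfl

private theorem payoff_eq (σ : Strategy G0 G0.A₁) (τ : Strategy G0 G0.A₂)
    (f g : H40.St → Fin 3 → ℝ) (hf : ∀ h s a, σ.prob h s a = f s a)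
    (hg : ∀ h s a, τ.prob h s a = g s a) (T : Set H40.St) (s : H40.St) :
    payoff G0 σ τ T s = H40.Rv H40.nxt f g T s := by
  unfold payoff H40.Rv
  exact iSup_congr fun n => reach_eq σ τ f g hf hg T n [] s

/-- **Negative answer.**  There are a deterministic two-player reach-a-set game and `ε > 0` such
that no profile of stationary strategies is an `ε`-Nash equilibrium. -/
theorem result : ∃ (G : Game) (ε : ℝ), 0 < ε ∧
    ∀ (σ : Strategy G G.A₁) (τ : Strategy G G.A₂), Stationary σ → Stationary τ →
      ¬ IsNash G ε σ τ := by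
  have h0 := H40.no_eq
  push Not at h0
  obtain ⟨ε, hε, hno⟩ := h0
  refine ⟨G0, ε, hε, fun σ τ hσ hτ hN => ?_⟩
  have hf : ∀ h s a, σ.prob h s a = σ.prob [] s a := fun h s a => by rw [hσ h []]
  have hg : ∀ h s a, τ.prob h s a = τ.prob [] s a := fun h s a => by rw [hτ h []]
  refine hno (fun s a => σ.prob [] s a) (fun s a => τ.prob [] s a)
    ⟨⟨fun s a => σ.nonneg [] s a, fun s => σ.sum_one [] s⟩,
      ⟨fun s a => τ.nonneg [] s a, fun s => τ.sum_one [] s⟩, ?_, ?_⟩
  · intro σ' hσ' s
    have h1 := (hN s).1 ⟨fun _ s a => σ' s a, fun _ s a => hσ'.1 s a, fun _ s => hσ'.2 s⟩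
    rw [payoff_eq σ τ _ _ hf hg, payoff_eq _ τ σ' _ (fun _ _ _ => rfl) hg] at h1
    exact h1
  · intro τ' hτ' s
    have h1 := (hN s).2 ⟨fun _ s a => τ' s a, fun _ s a => hτ'.1 s a, fun _ s => hτ'.2 s⟩
    rw [payoff_eq σ τ _ _ hf hg, payoff_eq σ _ _ τ' hf (fun _ _ _ => rfl)] at h1
    exact h1

end Pool.Agent.Results.MP_87895e_lc.NoStationaryEquilibrium
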